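import Pool.Agent.Helper93_FL.BStmts

/-!
# Module B3: closed sets of randomness defined by closed conditions, one coordinate after the other
-/

open MeasureTheory Set
open scoped ENNReal

namespace Pool.Agent.FL.H76.W

variable {I : Type}

/-- `C` depends only on the first `l` digits of the coordinates in `E`. -/
def Cyl (E : Finset I) (l : ℕ) (C : Set (I → Rd)) : Prop :=
  ∀ u u' : I → Rd, (∀ i ∈ E, ∀ m < l, u i m = u' i m) → u ∈ C → u' ∈ C

def IsCyl (C : Set (I → Rd)) : Prop := ∃ E l, Cyl E l C

theorem Cyl.mono {E E' : Finset I} {l l' : ℕ} {C : Set (I → Rd)} (h : Cyl E l C) (hE : E ⊆ E')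
    (hl : l ≤ l') : Cyl E' l' C :=
  fun u u' h1 h2 => h u u' (fun i hi m hm => h1 i (hE hi) m (hm.trans_le hl)) h2

theorem IsCyl.inter {C D : Set (I → Rd)} (hC : IsCyl C) (hD : IsCyl D) : IsCyl (C ∩ D) := by
  classical
  obtain ⟨E, l, h⟩ := hC
  obtain ⟨E', l', h'⟩ := hD
  refine ⟨E ∪ E', max l l', fun u u' hu hm => ?_⟩
  exact ⟨h.mono Finset.subset_union_left (le_max_left _ _) u u' hu hm.1,
    h'.mono Finset.subset_union_right (le_max_right _ _) u u' hu hm.2⟩

theorem IsCyl.union {C D : Set (I → Rd)} (hC : IsCyl C) (hD : IsCyl D) : IsCyl (C ∪ D) := by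
  classical
  obtain ⟨E, l, h⟩ := hC
  obtain ⟨E', l', h'⟩ := hD
  refine ⟨E ∪ E', max l l', fun u u' hu hm => ?_⟩
  rcases hm with hm | hm
  · exact Or.inl (h.mono Finset.subset_union_left (le_max_left _ _) u u' hu hm)
  · exact Or.inr (h'.mono Finset.subset_union_right (le_max_right _ _) u u' hu hm)

theorem Cyl.compl {E : Finset I} {l : ℕ} {C : Set (I → Rd)} (h : Cyl E l C) : Cyl E l Cᶜ :=
  fun u u' h1 h2 h3 => h2 (h u' u (fun i hi m hm => (h1 i hi m hm).symm) h3)

theorem IsCyl.univ : IsCyl (Set.univ : Set (I → Rd)) := ⟨∅, 0, fun _ _ _ _ => mem_univ _⟩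
theorem IsCyl.empty : IsCyl (∅ : Set (I → Rd)) := ⟨∅, 0, fun _ _ _ h => h⟩

theorem Cyl.measurableSet {E : Finset I} {l : ℕ} {C : Set (I → Rd)} (h : Cyl E l C) :
    MeasurableSet C := by
  let r : (I → Rd) → ((i : E) → (m : Fin l) → Fin (Lz m)) := fun u i m => u i m
  have hr : Measurable r := by
    refine measurable_pi_iff.2 fun i => measurable_pi_iff.2 fun m => ?_
    exact (measurable_pi_apply (m : ℕ)).comp (measurable_pi_apply (i : I))
  have : C = r ⁻¹' (r '' C) := by
    ext u
    constructor
    · intro hu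
      exact ⟨u, hu, rfl⟩
    · rintro ⟨u', hu', he⟩
      refine h u' u (fun i hi m hm => ?_) hu'
      exact congrFun (congrFun he ⟨i, hi⟩) ⟨m, hm⟩
  rw [this]
  exact hr (Set.toFinite _).measurableSet

theorem IsCyl.measurableSet {C : Set (I → Rd)} (h : IsCyl C) : MeasurableSet C := by
  obtain ⟨E, l, h⟩ := h
  exact h.measurableSet

/-- Countable intersections of cylinders. -/
def IsFd (F : Set (I → Rd)) : Prop := ∃ C : ℕ → Set (I → Rd), (∀ n, IsCyl (C n)) ∧ F = ⋂ n, C n

theorem IsCyl.isFd {C : Set (I → Rd)} (h : IsCyl C) : IsFd C :=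
  ⟨fun _ => C, fun _ => h, (iInter_const C).symm⟩

theorem IsFd.iInter {F : ℕ → Set (I → Rd)} (h : ∀ n, IsFd (F n)) : IsFd (⋂ n, F n) := by
  choose C hC hF using h
  refine ⟨fun k => C k.unpair.1 k.unpair.2, fun k => hC _ _, ?_⟩
  ext u
  simp only [mem_iInter, hF]
  constructor
  · intro h k
    exact h _ _
  · intro h n m
    have := h (Nat.pair n m)
    simpa using this

theorem IsFd.union {F G : Set (I → Rd)} (hF : IsFd F) (hG : IsFd G) : IsFd (F ∪ G) := by
  obtain ⟨C, hC, rfl⟩ := hF
  obtain ⟨D, hD, rfl⟩ := hG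
  have : (⋂ n, C n) ∪ (⋂ n, D n) = ⋂ n, ⋂ m, (C n ∪ D m) := by
    rw [iInter_union]
    refine iInter_congr fun n => ?_
    rw [union_iInter]
  rw [this]
  exact IsFd.iInter fun n => IsFd.iInter fun m => ((hC n).union (hD m)).isFd

theorem IsFd.biUnion {F : ℕ → Set (I → Rd)} (h : ∀ n, IsFd (F n)) (N : ℕ) :
    IsFd (⋃ n < N, F n) := by
  induction N with
  | zero =>
    have : (⋃ n < 0, F n) = ∅ := by simp
    rw [this]
    exact IsCyl.empty.isFd
  | succ N ih =>
    have : (⋃ n < N + 1, F n) = (⋃ n < N, F n) ∪ F N := by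
      ext u
      simp only [mem_iUnion, mem_union, exists_prop, Nat.lt_succ_iff_lt_or_eq]
      constructor
      · rintro ⟨i, h | rfl, hi⟩
        · exact Or.inl ⟨i, h, hi⟩
        · exact Or.inr hi
      · rintro (⟨i, h, hi⟩ | hi)
        · exact ⟨i, Or.inl h, hi⟩
        · exact ⟨N, Or.inr rfl, hi⟩
    rw [this]
    exact ih.union (h N)

theorem IsFd.measurableSet {F : Set (I → Rd)} (h : IsFd F) : MeasurableSet F := by
  obtain ⟨C, hC, rfl⟩ := h
  exact MeasurableSet.iInter fun n => (hC n).measurableSet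

/-- Sets which, together with their complement, can be approximated from inside. -/
def App (P : Measure (I → Rd)) (A : Set (I → Rd)) : Prop :=
  MeasurableSet A ∧ ∀ ε : ℝ≥0∞, ε ≠ 0 → (∃ F ⊆ A, IsFd F ∧ P (A \ F) ≤ ε) ∧
    (∃ F ⊆ Aᶜ, IsFd F ∧ P (Aᶜ \ F) ≤ ε)

theorem IsCyl.app {P : Measure (I → Rd)} {A : Set (I → Rd)} (h : IsCyl A) : App P A := by
  refine ⟨h.measurableSet, fun ε _ => ⟨⟨A, le_rfl, h.isFd, by simp⟩, ⟨Aᶜ, le_rfl, ?_, by simp⟩⟩⟩
  obtain ⟨E, l, h⟩ := h
  exact IsCyl.isFd ⟨E, l, h.compl⟩

theorem App.compl {P : Measure (I → Rd)} {A : Set (I → Rd)} (h : App P A) : App P Aᶜ :=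
  ⟨h.1.compl, fun ε hε => ⟨(h.2 ε hε).2, by simpa using (h.2 ε hε).1⟩⟩

theorem App.iUnion {P : Measure (I → Rd)} [IsProbabilityMeasure P] {A : ℕ → Set (I → Rd)}
    (h : ∀ n, App P (A n)) : App P (⋃ n, A n) := by
  refine ⟨MeasurableSet.iUnion fun n => (h n).1, fun ε hε => ?_⟩
  obtain ⟨δ, hδ0, hδ⟩ := ENNReal.exists_pos_sum_of_countable' hε ℕ
  constructor
  · have := fun n => ((h n).2 (δ n) (hδ0 n).ne').1
    choose F hFA hF hP using this
    have hm : ∀ N, MeasurableSet ((⋃ n, A n) \ (⋃ n < N, F n)) := fun N =>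
      (MeasurableSet.iUnion fun n => (h n).1).diff (IsFd.biUnion hF N).measurableSet
    have hanti : Antitone (fun N => (⋃ n, A n) \ (⋃ n < N, F n)) := by
      intro a b hab
      refine sdiff_subset_sdiff_right ?_
      exact biUnion_mono (fun i hi => lt_of_lt_of_le hi hab) (fun _ _ => le_rfl)
    have ht := tendsto_measure_iInter_atTop (μ := P) (fun N => (hm N).nullMeasurableSet) hanti
      ⟨0, measure_ne_top _ _⟩
    have hle : P (⋂ N, (⋃ n, A n) \ (⋃ n < N, F n)) < ε := by
      refine lt_of_le_of_lt ?_ hδ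
      calc P (⋂ N, (⋃ n, A n) \ (⋃ n < N, F n)) ≤ P (⋃ n, (A n \ F n)) := by
            refine measure_mono ?_
            intro u hu
            rw [mem_iInter] at hu
            obtain ⟨n, hn⟩ := mem_iUnion.1 (hu 0).1
            refine mem_iUnion.2 ⟨n, hn, fun hf => (hu (n + 1)).2 ?_⟩
            exact mem_iUnion₂.2 ⟨n, Nat.lt_succ_self n, hf⟩
        _ ≤ ∑' n, P (A n \ F n) := measure_iUnion_le _
        _ ≤ ∑' n, δ n := ENNReal.tsum_le_tsum hP
    obtain ⟨N, hN⟩ := (ht.eventually (gt_mem_nhds hle)).exists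
    refine ⟨⋃ n < N, F n, ?_, IsFd.biUnion hF N, hN.le⟩
    exact iUnion₂_subset fun n _ => (hFA n).trans (subset_iUnion A n)
  · have := fun n => ((h n).2 (δ n) (hδ0 n).ne').2
    choose F hFA hF hP using this
    refine ⟨⋂ n, F n, ?_, IsFd.iInter hF, ?_⟩
    · rw [compl_iUnion]
      exact iInter_mono hFA
    · refine le_trans ?_ hδ.le
      calc P ((⋃ n, A n)ᶜ \ ⋂ n, F n) ≤ P (⋃ n, ((A n)ᶜ \ F n)) := by
            refine measure_mono ?_
            rintro u ⟨hu, hu'⟩
            rw [mem_iInter, not_forall] at hu'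
            obtain ⟨n, hn⟩ := hu'
            rw [compl_iUnion, mem_iInter] at hu
            exact mem_iUnion.2 ⟨n, hu n, hn⟩
        _ ≤ ∑' n, P ((A n)ᶜ \ F n) := measure_iUnion_le _
        _ ≤ ∑' n, δ n := ENNReal.tsum_le_tsum hP

theorem app_of_measurableSet {P : Measure (I → Rd)} [IsProbabilityMeasure P] {A : Set (I → Rd)}
    (hA : MeasurableSet A) : App P A := by
  let ms : MeasurableSpace (I → Rd) :=
    { MeasurableSet' := App P
      measurableSet_empty := IsCyl.empty.app
      measurableSet_compl := fun _ h => h.compl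
      measurableSet_iUnion := fun _ h => App.iUnion h }
  have hle : (MeasurableSpace.pi : MeasurableSpace (I → Rd)) ≤ ms := by
    unfold MeasurableSpace.pi
    refine iSup_le fun i => ?_
    rw [MeasurableSpace.comap_le_iff_le_map]
    refine iSup_le fun m => ?_
    rw [MeasurableSpace.comap_le_iff_le_map]
    intro s _
    change App P ((fun u : I → Rd => u i) ⁻¹' ((fun w : Rd => w m) ⁻¹' s))
    refine IsCyl.app ⟨{i}, m + 1, fun u u' hu hm => ?_⟩
    have := hu i (Finset.mem_singleton_self i) m (Nat.lt_succ_self m)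
    change u i m ∈ s at hm
    change u' i m ∈ s
    rwa [← this]
  exact hle A hA

theorem exists_fd {P : Measure (I → Rd)} [IsProbabilityMeasure P] {A : Set (I → Rd)}
    (hA : MeasurableSet A) (h0 : P A ≠ 0) :
    ∃ C : ℕ → Set (I → Rd), ∃ E : ℕ → Finset I, ∃ l : ℕ → ℕ, (∀ n, Cyl (E n) (l n) (C n)) ∧
      Antitone C ∧ (⋂ n, C n) ⊆ A ∧ P (⋂ n, C n) ≠ 0 := by
  have hε : P A / 2 ≠ 0 := (ENNReal.half_pos h0).ne'
  obtain ⟨F, hFA, ⟨C, hC, rfl⟩, hP⟩ := ((app_of_measurableSet (P := P) hA).2 _ hε).1
  have hfin : ∀ n, IsCyl (⋂ m ≤ n, C m) := by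
    intro n
    induction n with
    | zero =>
      have : (⋂ m ≤ 0, C m) = C 0 := by simp
      rw [this]; exact hC 0
    | succ n ih =>
      have : (⋂ m ≤ n + 1, C m) = (⋂ m ≤ n, C m) ∩ C (n + 1) := by
        ext u
        simp only [mem_iInter, mem_inter_iff]
        constructor
        · intro h
          exact ⟨fun i hi => h i (by omega), h _ le_rfl⟩
        · rintro ⟨h1, h2⟩ i hi
          rcases Nat.lt_or_ge n i with h | h
          · obtain rfl : i = n + 1 := by omega
            exact h2
          · exact h1 i h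
      rw [this]
      exact ih.inter (hC _)
  choose E l hEl using hfin
  have heq : (⋂ n, ⋂ m ≤ n, C m) = ⋂ n, C n := by
    ext u
    simp only [mem_iInter]
    exact ⟨fun h n => h n n le_rfl, fun h n m _ => h m⟩
  refine ⟨fun n => ⋂ m ≤ n, C m, E, l, hEl, ?_, ?_, ?_⟩
  · intro a b hab
    exact biInter_mono (fun i hi => le_trans hi hab) (fun _ _ => le_rfl)
  · rw [heq]; exact hFA
  · rw [heq]
    intro h
    have h1 : P A ≤ P (⋂ n, C n) + P (A \ ⋂ n, C n) := by
      rw [add_comm]
      calc P A ≤ P ((A \ ⋂ n, C n) ∪ (⋂ n, C n)) := by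
            refine measure_mono fun u hu => ?_
            by_cases h2 : u ∈ ⋂ n, C n
            · exact Or.inr h2
            · exact Or.inl ⟨hu, h2⟩
        _ ≤ _ := measure_union_le _ _
    rw [h, zero_add] at h1
    have h2 := h1.trans hP
    exact absurd (ENNReal.half_lt_self h0 (measure_ne_top P A)) (not_lt.2 h2)

/-! ### Conditional measures -/

/-- Conditional measure of `C` given the coordinates in `J`. -/
noncomputable def M (J : Set I) (C : Set (I → Rd)) (u : I → Rd) : ℝ≥0∞ :=
  mP I {v | glueR J u v ∈ C}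

theorem measurable_glueR (J : Set I) :
    Measurable (fun x : (I → Rd) × (I → Rd) => glueR J x.1 x.2) := by
  refine measurable_pi_iff.2 fun i => ?_
  by_cases hi : i ∈ J
  · have : (fun x : (I → Rd) × (I → Rd) => glueR J x.1 x.2 i) = fun x => x.1 i := by
      funext x; simp [glueR, hi]
    rw [this]
    exact (measurable_pi_apply i).comp measurable_fst
  · have : (fun x : (I → Rd) × (I → Rd) => glueR J x.1 x.2 i) = fun x => x.2 i := by
      funext x; simp [glueR, hi]
    rw [this]
    exact (measurable_pi_apply i).comp measurable_snd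

theorem measurableSet_section (J : Set I) {C : Set (I → Rd)} (hC : MeasurableSet C)
    (u : I → Rd) : MeasurableSet {v | glueR J u v ∈ C} :=
  (measurable_glueR J).comp (measurable_prodMk_left (x := u)) hC

theorem measurable_M (hP : IsProbabilityMeasure (mP I)) (J : Set I) {C : Set (I → Rd)}
    (hC : MeasurableSet C) : Measurable (M J C) := by
  have h : MeasurableSet ((fun x : (I → Rd) × (I → Rd) => glueR J x.1 x.2) ⁻¹' C) :=
    measurable_glueR J hC
  exact measurable_measure_prodMk_left h

theorem M_mono (J : Set I) {C D : Set (I → Rd)} (h : C ⊆ D) (u : I → Rd) : M J C u ≤ M J D u :=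
  measure_mono fun _ hv => h hv

theorem M_le_one (hP : IsProbabilityMeasure (mP I)) (J : Set I) (C : Set (I → Rd)) (u : I → Rd) :
    M J C u ≤ 1 := prob_le_one

theorem M_iInter (hP : IsProbabilityMeasure (mP I)) (J : Set I) {C : ℕ → Set (I → Rd)}
    (hC : ∀ n, MeasurableSet (C n)) (ha : Antitone C) (u : I → Rd) :
    M J (⋂ n, C n) u = ⨅ n, M J (C n) u := by
  have h1 : {v | glueR J u v ∈ ⋂ n, C n} = ⋂ n, {v | glueR J u v ∈ C n} := by
    ext v; simp
  unfold M
  rw [h1]
  refine Antitone.measure_iInter (fun a b hab v hv => ha hab hv)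
    (fun n => (measurableSet_section J (hC n) u).nullMeasurableSet) ⟨0, measure_ne_top _ _⟩

/-- The conditional measure of a cylinder does not change if the points agree on the cylinder's
coordinates. -/
theorem M_congr {E : Finset I} {l : ℕ} {C : Set (I → Rd)} (h : Cyl E l C) {J J' : Set I}
    {u u' : I → Rd} (hJ : ∀ i ∈ E, i ∈ J ↔ i ∈ J') (hu : ∀ i ∈ E, i ∈ J → ∀ m < l, u i m = u' i m) :
    M J C u = M J' C u' := by
  unfold M
  congr 1
  ext v
  have h1 : ∀ i ∈ E, ∀ m < l, glueR J u v i m = glueR J' u' v i m := by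
    intro i hi m hm
    unfold glueR
    by_cases h2 : i ∈ J
    · rw [if_pos h2, if_pos ((hJ i hi).1 h2)]
      exact hu i hi h2 m hm
    · rw [if_neg h2, if_neg (fun h3 => h2 ((hJ i hi).2 h3))]
  exact ⟨h _ _ h1, h _ _ (fun i hi m hm => (h1 i hi m hm).symm)⟩

theorem M_empty {E : Finset I} {l : ℕ} {C : Set (I → Rd)} (h : Cyl E l C) {J : Set I}
    {u : I → Rd} (hJ : ∀ i ∈ E, i ∉ J) : M J C u = mP I C := by
  unfold M
  congr 1
  ext v
  have h1 : ∀ i ∈ E, ∀ m < l, glueR J u v i m = v i m := by
    intro i hi m hm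
    unfold glueR
    rw [if_neg (hJ i hi)]
  exact ⟨h _ _ h1, h _ _ (fun i hi m hm => (h1 i hi m hm).symm)⟩

/-- Disintegration along one coordinate. -/
theorem M_step [LinearOrder I] (h2 : ProdStmt) (j : I) {C : Set (I → Rd)}
    (hC : MeasurableSet C) (u : I → Rd) :
    M (Iio j) C u = ∫⁻ w, M (Iic j) C (Function.update u j w) ∂mU := by
  obtain ⟨hmU, h2⟩ := h2
  obtain ⟨hP, -, h3⟩ := h2 I
  have h4 := h3 j
  have hm : Measurable (fun x : (I → Rd) × Rd => Function.update x.1 j x.2) := by
    refine measurable_pi_iff.2 fun i => ?_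
    by_cases hi : i = j
    · subst hi
      simpa using measurable_snd
    · simp only [Function.update_of_ne hi]
      exact (measurable_pi_apply i).comp measurable_fst
  have hS := measurableSet_section (Iio j) hC u
  unfold M
  conv_lhs => rw [← h4]
  rw [Measure.map_apply hm hS, Measure.prod_apply_symm (hm hS)]
  refine lintegral_congr fun w => ?_
  congr 1
  ext v
  change glueR (Iio j) u (Function.update v j w) ∈ C ↔ glueR (Iic j) (Function.update u j w) v ∈ C
  have : glueR (Iio j) u (Function.update v j w) = glueR (Iic j) (Function.update u j w) v := by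
    funext i
    unfold glueR
    rcases lt_trichotomy i j with h | h | h
    · rw [if_pos (show i ∈ Iio j from h), if_pos (show i ∈ Iic j from h.le),
        Function.update_of_ne h.ne]
    · subst h
      rw [if_neg (show i ∉ Iio i from lt_irrefl i), if_pos (show i ∈ Iic i from le_rfl)]
      simp
    · rw [if_neg (show i ∉ Iio j from not_lt.2 h.le), if_neg (show i ∉ Iic j from not_le.2 h),
        Function.update_of_ne h.ne']
  rw [this]

/-- Some randomness with given first digits. -/
def ofR (σ : Node) : Rd := fun m => ⟨σ.getD m 0 % Lz m, Nat.mod_lt _ (Nat.factorial_pos _)⟩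

theorem ofR_pre (w : Rd) {m i : ℕ} (h : i < m) : ofR (pre w m) i = w i := by
  apply Fin.ext
  simp only [ofR]
  rw [List.getD_eq_getElem _ _ (by simpa using h), getElem_pre]
  exact Nat.mod_eq_of_lt (w i).isLt

theorem w (h2 : ProdStmt) : WStmt := by
  intro I _ _ A hA hA0
  have hmU := h2.1
  have hP := (h2.2 I).1
  obtain ⟨C, E, l, hCyl, hanti, hsub, hpos⟩ := exists_fd (P := mP I) hA hA0
  have hCm : ∀ n, MeasurableSet (C n) := fun n => (hCyl n).measurableSet
  set F : Set (I → Rd) := ⋂ n, C n with hFdef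
  have hFm : MeasurableSet F := MeasurableSet.iInter hCm
  let S0 : Set I := ⋃ n, (E n : Set I)
  have hS0 : S0.Countable := countable_iUnion fun n => (E n).countable_toSet
  -- the small numbers
  have : Countable S0 := hS0.to_subtype
  obtain ⟨ε', hε'0, hε'⟩ := ENNReal.exists_pos_sum_of_countable' hpos S0
  classical
  let ε : I → ℝ≥0∞ := fun i => if h : i ∈ S0 then ε' ⟨i, h⟩ else 0
  have hε0 : ∀ i ∈ S0, 0 < ε i := fun i hi => by simp only [ε, hi, dif_pos]; exact hε'0 _
  have hεsum : ∑' i, ε i < mP I F := by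
    refine lt_of_le_of_lt (le_of_eq ?_) hε'
    rw [← tsum_subtype_eq_of_support_subset (s := S0)]
    · refine tsum_congr fun i => ?_
      simp [ε]
    · intro i hi
      by_contra h
      exact hi (by simp [ε, h])
  let σ : Set I → ℝ≥0∞ := fun J => ∑' i, J.indicator ε i
  have hσ_le : ∀ J, σ J ≤ ∑' i, ε i := fun J =>
    ENNReal.tsum_le_tsum fun i => indicator_le_self' (fun _ _ => zero_le) i
  have hσ_mono : ∀ J J' : Set I, J ⊆ J' → σ J ≤ σ J' := fun J J' h =>
    ENNReal.tsum_le_tsum fun i => indicator_le_indicator_of_subset h (fun _ => zero_le) i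
  have hσ_add : ∀ j, ε j + σ (Iio j) ≤ σ (Iic j) := by
    intro j
    have h1 : ε j = ∑' i, (({j} : Set I).indicator ε i) := by
      rw [tsum_eq_single j]
      · simp
      · intro i hi
        simp [hi]
    rw [h1, ← ENNReal.tsum_add]
    refine ENNReal.tsum_le_tsum fun i => ?_
    rcases lt_trichotomy i j with h | h | h
    · rw [indicator_of_notMem (by simpa using h.ne), indicator_of_mem (show i ∈ Iio j from h),
        indicator_of_mem (show i ∈ Iic j from h.le), zero_add]
    · subst h
      rw [indicator_of_mem (by simp), indicator_of_notMem (show i ∉ Iio i from lt_irrefl i),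
        indicator_of_mem (show i ∈ Iic i from le_rfl), add_zero]
    · rw [indicator_of_notMem (by simpa using h.ne'),
        indicator_of_notMem (show i ∉ Iio j from not_lt.2 h.le), zero_add]
      exact zero_le
  let W : I → (I → Rd) → Set Node := fun j u => {s | j ∈ S0 → ∀ n, l n ≤ s.length →
    M (Iio j) F u ≤ M (Iic j) (C n) (Function.update u j (ofR s)) + ε j}
  -- characterisation of the body
  have hbody1 : ∀ j u w, (j ∈ S0 → M (Iio j) F u ≤ M (Iic j) F (Function.update u j w) + ε j) →
      w ∈ bodyR (W j u) := by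
    intro j u w h m hj n hn
    rw [length_pre] at hn
    refine (h hj).trans (add_le_add_left ?_ _)
    refine (M_mono _ (iInter_subset C n) _).trans (le_of_eq ?_)
    refine M_congr (hCyl n) (fun _ _ => Iff.rfl) (fun i _ _ m' hm' => ?_)
    by_cases h3 : i = j
    · subst h3
      simp only [Function.update_self]
      exact (ofR_pre w (hm'.trans_le hn)).symm
    · simp only [Function.update_of_ne h3]
  have hbody2 : ∀ j u w, w ∈ bodyR (W j u) → j ∈ S0 →
      M (Iio j) F u ≤ M (Iic j) F (Function.update u j w) + ε j := by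
    intro j u w h hj
    rw [hFdef, M_iInter hP (Iic j) hCm hanti, ENNReal.iInf_add]
    refine le_iInf fun n => ?_
    have := h (l n) hj n (by simp)
    rw [hFdef] at this
    refine this.trans (add_le_add_left (le_of_eq ?_) _)
    refine M_congr (hCyl n) (fun _ _ => Iff.rfl) (fun i _ _ m' hm' => ?_)
    by_cases h3 : i = j
    · subst h3
      simp only [Function.update_self]
      exact ofR_pre w hm'
    · simp only [Function.update_of_ne h3]
  refine ⟨S0, hS0, W, ?_, ?_, ?_, ?_, ?_⟩
  · intro j hj u
    exact eq_univ_of_forall fun s h => absurd h hj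
  · intro j u u' h
    have hFu : M (Iio j) F u = M (Iio j) F u' := by
      rw [hFdef, M_iInter hP (Iio j) hCm hanti, M_iInter hP (Iio j) hCm hanti]
      refine iInf_congr fun n => ?_
      refine M_congr (hCyl n) (fun _ _ => Iff.rfl) (fun i hi hij m _ => ?_)
      rw [h i (mem_iUnion.2 ⟨n, hi⟩) hij]
    ext s
    have hCu : ∀ n, M (Iic j) (C n) (Function.update u j (ofR s)) =
        M (Iic j) (C n) (Function.update u' j (ofR s)) := by
      intro n
      refine M_congr (hCyl n) (fun _ _ => Iff.rfl) (fun i hi hij m _ => ?_)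
      rcases lt_or_eq_of_le (mem_Iic.1 hij) with h3 | h3
      · rw [Function.update_of_ne h3.ne, Function.update_of_ne h3.ne,
          h i (mem_iUnion.2 ⟨n, hi⟩) h3]
      · subst h3
        simp
    simp only [W, mem_ofPred_eq, hFu, hCu]
  · intro j
    refine measurable_set_iff.2 fun s => ?_
    refine measurableSet_setOfPred.1 ?_
    by_cases hj : j ∈ S0
    · have : {u | s ∈ W j u} = ⋂ n, {u | l n ≤ s.length →
          M (Iio j) F u ≤ M (Iic j) (C n) (Function.update u j (ofR s)) + ε j} := by
        ext u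
        simp only [W, mem_ofPred_eq, hj, true_imp_iff, mem_iInter]
      rw [this]
      refine MeasurableSet.iInter fun n => ?_
      by_cases hn : l n ≤ s.length
      · simp only [hn, true_imp_iff]
        refine measurableSet_le (measurable_M hP _ hFm) ?_
        refine Measurable.add ?_ measurable_const
        refine (measurable_M hP _ (hCm n)).comp ?_
        refine measurable_pi_iff.2 fun i => ?_
        by_cases hi : i = j
        · subst hi
          simp
        · simp only [Function.update_of_ne hi]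
          exact measurable_pi_apply i
      · simp [hn]
    · have : {u | s ∈ W j u} = univ := by
        ext u
        simp [W, hj]
      rw [this]
      exact MeasurableSet.univ
  · intro j u _ h0
    by_cases hj : j ∈ S0
    · have h1 : ∀ᵐ w ∂mU, M (Iic j) F (Function.update u j w) + ε j ≤ M (Iio j) F u := by
        refine measure_mono_null ?_ h0
        intro w hw
        refine hbody1 j u w fun _ => ?_
        have hw' : ¬ (M (Iic j) F (Function.update u j w) + ε j ≤ M (Iio j) F u) := hw
        exact (not_le.1 hw').le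
      have h3 := lintegral_mono_ae h1
      rw [lintegral_add_right _ measurable_const, ← M_step h2 j hFm u] at h3
      simp only [lintegral_const, measure_univ, mul_one] at h3
      have h4 : M (Iio j) F u ≠ ∞ := ne_top_of_le_ne_top ENNReal.one_ne_top (M_le_one hP _ _ _)
      exact absurd h3 (not_le.2 (ENNReal.lt_add_right h4 (hε0 j hj).ne'))
    · have : bodyR (W j u) = univ := eq_univ_of_forall fun w => hbody1 j u w fun h => absurd h hj
      rw [this, measure_univ] at h0
      exact one_ne_zero h0
  · intro u hu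
    apply hsub
    have key : ∀ j, j ∈ S0 → mP I F ≤ M (Iic j) F u + σ (Iic j) := by
      intro j
      induction j using WellFoundedLT.induction with
      | ind j ih =>
        intro hj
        have h1 : mP I F ≤ M (Iio j) F u + σ (Iio j) := by
          rw [hFdef, M_iInter hP (Iio j) hCm hanti, ENNReal.iInf_add]
          refine le_iInf fun n => ?_
          by_cases hne : ((E n).filter (· < j)).Nonempty
          · let i := ((E n).filter (· < j)).max' hne
            have hi : i ∈ (E n).filter (· < j) := Finset.max'_mem _ hne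
            rw [Finset.mem_filter] at hi
            have h2 := ih i hi.2 (mem_iUnion.2 ⟨n, hi.1⟩)
            rw [← hFdef]
            refine h2.trans (add_le_add ?_ (hσ_mono _ _ fun k hk => lt_of_le_of_lt hk hi.2))
            refine (M_mono _ (iInter_subset C n) _).trans (le_of_eq ?_)
            refine M_congr (hCyl n) (fun k hk => ?_) (fun _ _ _ _ _ => rfl)
            constructor
            · intro hki
              exact lt_of_le_of_lt hki hi.2
            · intro hkj
              exact Finset.le_max' _ _ (Finset.mem_filter.2 ⟨hk, hkj⟩)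
          · rw [M_empty (hCyl n) (J := Iio j) (u := u) (fun k hk hkj =>
              hne ⟨k, Finset.mem_filter.2 ⟨hk, hkj⟩⟩)]
            exact (measure_mono (iInter_subset C n)).trans le_self_add
        have h2 := hbody2 j u (u j) (hu j) hj
        rw [Function.update_eq_self] at h2
        calc mP I F ≤ M (Iio j) F u + σ (Iio j) := h1
          _ ≤ (M (Iic j) F u + ε j) + σ (Iio j) := by gcongr
          _ = M (Iic j) F u + (ε j + σ (Iio j)) := by rw [add_assoc]
          _ ≤ _ := by gcongr; exact hσ_add j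
    refine mem_iInter.2 fun n => ?_
    by_cases hne : (E n).Nonempty
    · let i := (E n).max' hne
      have hi : i ∈ E n := Finset.max'_mem _ hne
      have h1 := key i (mem_iUnion.2 ⟨n, hi⟩)
      have h2 : M (Iic i) (C n) u ≠ 0 := by
        intro h0
        have h3 : M (Iic i) F u = 0 :=
          le_antisymm ((M_mono _ (iInter_subset C n) u).trans h0.le) zero_le
        rw [h3, zero_add] at h1
        exact absurd (h1.trans (hσ_le _)) (not_le.2 hεsum)
      obtain ⟨v, hv⟩ := nonempty_of_measure_ne_zero h2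
      refine hCyl n _ u (fun k hk m _ => ?_) hv
      unfold glueR
      rw [if_pos (show k ∈ Iic i from Finset.le_max' _ _ hk)]
    · have h1 : (C n).Nonempty := by
        refine nonempty_of_measure_ne_zero (μ := mP I) fun h0 => hpos ?_
        exact le_antisymm ((measure_mono (iInter_subset C n)).trans h0.le) zero_le
      obtain ⟨v, hv⟩ := h1
      exact hCyl n v u (fun k hk => absurd ⟨k, hk⟩ hne) hv

end Pool.Agent.FL.H76.W

theorem Pool.Agent.FL.H76.b3 (h2 : Pool.Agent.FL.ProdStmt) : Pool.Agent.FL.WStmt :=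
  Pool.Agent.FL.H76.W.w h2
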