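import Pool.Agent.Helper93_FL.BStmts

/-!
# Module B5: measurable selection of the randomness producing a given branch
-/

open MeasureTheory Set

namespace Pool.Agent.FL.H76.S

/-- Some randomness with given first digits. -/
def ofR (σ : Node) : Rd := fun m => ⟨σ.getD m 0 % Lz m, Nat.mod_lt _ (Nat.factorial_pos _)⟩

theorem ofR_pre (w : Rd) {m i : ℕ} (h : i < m) : ofR (pre w m) i = w i := by
  apply Fin.ext
  simp only [ofR]
  rw [List.getD_eq_getElem _ _ (by simpa using h), getElem_pre]
  exact Nat.mod_eq_of_lt (w i).isLt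

/-- Nodes of the full tree of the randomness. -/
def fullR : Set Node := {σ | ∀ i (h : i < σ.length), σ[i] < Lz i}

theorem pre_ofR {σ : Node} (h : σ ∈ fullR) : pre (ofR σ) σ.length = σ := by
  apply List.ext_getElem
  · simp
  · intro i h1 h2
    rw [getElem_pre]
    simp [ofR, h2, Nat.mod_eq_of_lt (h i h2)]

theorem pre_mem_fullR (w : Rd) (m : ℕ) : pre w m ∈ fullR := by
  intro i hi
  rw [getElem_pre]
  exact (w i).isLt

theorem take_mem_fullR {σ : Node} (h : σ ∈ fullR) (k : ℕ) : σ.take k ∈ fullR := by
  intro i hi
  rw [List.getElem_take]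
  exact h i _

theorem ofR_take {σ : Node} {k i : ℕ} (hi : i < k) : ofR (σ.take k) i = ofR σ i := by
  apply Fin.ext
  simp only [ofR]
  by_cases h : i < σ.length
  · rw [List.getD_eq_getElem _ _ (by simp; omega), List.getD_eq_getElem _ _ h, List.getElem_take]
  · rw [List.getD_eq_default _ _ (by simp; omega), List.getD_eq_default _ _ (by omega)]

/-! ### The leftmost branch of a finitely branching tree -/

/-- The node `r` has extensions in `K` of all lengths. -/
def extK (K : Set Node) (r : Node) : Prop := ∀ l, r.length ≤ l → ∃ r' ∈ K, r'.length = l ∧ r <+: r'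

theorem measurableSet_extK (r : Node) : MeasurableSet {K : Set Node | extK K r} := by
  have : {K : Set Node | extK K r} = ⋂ l : ℕ, {K : Set Node | r.length ≤ l →
      ∃ r' ∈ K, r'.length = l ∧ r <+: r'} := by
    ext K; simp [extK]
  rw [this]
  refine MeasurableSet.iInter fun l => ?_
  by_cases h : r.length ≤ l
  · have : {K : Set Node | r.length ≤ l → ∃ r' ∈ K, r'.length = l ∧ r <+: r'} =
        ⋃ r' : {r' : Node // r'.length = l ∧ r <+: r'}, {K : Set Node | r'.1 ∈ K} := by
      ext K
      simp only [mem_ofPred_eq, h, true_imp_iff, mem_iUnion]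
      constructor
      · rintro ⟨r', h1, h2⟩
        exact ⟨⟨r', h2⟩, h1⟩
      · rintro ⟨⟨r', h2⟩, h1⟩
        exact ⟨r', h1, h2⟩
    rw [this]
    exact MeasurableSet.iUnion fun r' => measurableSet_mem_node _
  · simp [h]

/-- Predicate defining the next digit of the leftmost branch. -/
def pN (r : Node) (K : Set Node) (a : ℕ) : Prop :=
  extK K (r ++ [a]) ∨ ∀ b, ¬ extK K (r ++ [b])

theorem exists_pN (r : Node) (K : Set Node) : ∃ a, pN r K a := by
  by_cases h : ∃ a, extK K (r ++ [a])
  · obtain ⟨a, ha⟩ := h
    exact ⟨a, Or.inl ha⟩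
  · push Not at h
    exact ⟨0, Or.inr h⟩

open Classical in
noncomputable def next (K : Set Node) (r : Node) : ℕ := Nat.find (exists_pN r K)

theorem measurable_next (r : Node) : Measurable (fun K : Set Node => next K r) := by
  classical
  unfold next
  refine measurable_find (fun K => exists_pN r K) fun a => ?_
  have : {K : Set Node | pN r K a} = {K | extK K (r ++ [a])} ∪ ⋂ b, {K | extK K (r ++ [b])}ᶜ := by
    ext K
    simp [pN]
  rw [this]
  exact (measurableSet_extK _).union (MeasurableSet.iInter fun b => (measurableSet_extK _).compl)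

/-- The leftmost branch, initial segments. -/
noncomputable def g (K : Set Node) : ℕ → Node
  | 0 => []
  | m + 1 => g K m ++ [next K (g K m)]

theorem length_g (K : Set Node) (m : ℕ) : (g K m).length = m := by
  induction m with
  | zero => rfl
  | succ m ih => simp [g, ih]

theorem measurableSet_g (m : ℕ) (σ : Node) : MeasurableSet {K : Set Node | g K m = σ} := by
  induction m generalizing σ with
  | zero =>
    by_cases h : [] = σ <;> simp [g, h]
  | succ m ih =>
    have : {K : Set Node | g K (m + 1) = σ} = ⋃ τ : Node, ⋃ a : ℕ,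
        {K : Set Node | τ ++ [a] = σ} ∩ ({K | g K m = τ} ∩ {K | next K τ = a}) := by
      ext K
      simp only [mem_ofPred_eq, mem_iUnion, mem_inter_iff]
      constructor
      · intro h
        exact ⟨g K m, next K (g K m), h, rfl, rfl⟩
      · rintro ⟨τ, a, h, rfl, rfl⟩
        exact h
    rw [this]
    refine MeasurableSet.iUnion fun τ => MeasurableSet.iUnion fun a => ?_
    refine MeasurableSet.inter (by simp) ((ih τ).inter ?_)
    exact measurable_next τ (measurableSet_singleton a)

/-- The leftmost branch. -/
noncomputable def lb (K : Set Node) : Rd := fun m =>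
  ⟨next K (g K m) % Lz m, Nat.mod_lt _ (Nat.factorial_pos _)⟩

theorem measurable_lb : Measurable lb := by
  refine measurable_pi_iff.2 fun m => ?_
  refine measurable_to_countable' fun a => ?_
  have : (fun K => lb K m) ⁻¹' {a} = ⋃ τ : Node,
      {K : Set Node | g K m = τ} ∩ {K | next K τ % Lz m = a.val} := by
    ext K
    simp only [mem_preimage, mem_singleton_iff, mem_iUnion, mem_inter_iff, mem_ofPred_eq, lb,
      Fin.ext_iff]
    constructor
    · intro h
      exact ⟨_, rfl, h⟩
    · rintro ⟨τ, rfl, h⟩
      exact h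
  rw [this]
  refine MeasurableSet.iUnion fun τ => (measurableSet_g m τ).inter ?_
  have h1 : Measurable (fun K : Set Node => next K τ % Lz m) :=
    (measurable_of_countable (fun n : ℕ => n % Lz m)).comp (measurable_next τ)
  exact h1 (measurableSet_singleton a.val)

theorem extK_step {K : Set Node} (hK : K ⊆ fullR) (ht : ∀ r ∈ K, ∀ k, r.take k ∈ K) {r : Node}
    (h : extK K r) : ∃ a, extK K (r ++ [a]) := by
  by_contra hcon
  push Not at hcon
  have h1 : ∀ a, ∃ l, r.length + 1 ≤ l ∧ ∀ r' ∈ K, r'.length = l → ¬ (r ++ [a]) <+: r' := by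
    intro a
    have := hcon a
    unfold extK at this
    push Not at this
    obtain ⟨l, h2, h3⟩ := this
    refine ⟨l, by simpa using h2, fun r' h4 h5 => h3 r' h4 h5⟩
  choose l hl hl2 using h1
  obtain ⟨r', hr', hlen, hpr⟩ := h (r.length + 1 + ∑ a ∈ Finset.range (Lz r.length), l a)
    (by omega)
  have hi : r.length < r'.length := by omega
  have ha := hK hr' r.length hi
  set a := r'[r.length] with hadef
  have hla : l a ≤ r'.length := by
    have := Finset.single_le_sum (f := l) (fun _ _ => Nat.zero_le _) (Finset.mem_range.2 ha)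
    omega
  refine hl2 a (r'.take (l a)) (ht r' hr' _) (by simp [hla]) ?_
  have h5 : r ++ [a] = r'.take (r.length + 1) := by
    rw [List.take_succ_eq_append_getElem hi, ← hadef]
    congr 1
    exact List.prefix_iff_eq_take.1 hpr
  rw [h5]
  exact List.take_prefix_take_left (hl a)

theorem extK_g {K : Set Node} (hK : K ⊆ fullR) (ht : ∀ r ∈ K, ∀ k, r.take k ∈ K)
    (hne : ∀ m, ∃ r ∈ K, r.length = m) (m : ℕ) : extK K (g K m) := by
  classical
  induction m with
  | zero =>
    intro l _
    obtain ⟨r, hr, hl⟩ := hne l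
    exact ⟨r, hr, hl, List.nil_prefix⟩
  | succ m ih =>
    have h1 := extK_step hK ht ih
    have h2 : pN (g K m) K (next K (g K m)) := Nat.find_spec (exists_pN (g K m) K)
    rcases h2 with h2 | h2
    · exact h2
    · obtain ⟨a, ha⟩ := h1
      exact absurd ha (h2 a)

theorem pre_lb {K : Set Node} (hK : K ⊆ fullR) (ht : ∀ r ∈ K, ∀ k, r.take k ∈ K)
    (hne : ∀ m, ∃ r ∈ K, r.length = m) (m : ℕ) : pre (lb K) m = g K m ∧ g K m ∈ K := by
  constructor
  · induction m with
    | zero => rfl
    | succ m ih =>
      rw [pre_succ, ih]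
      have h1 : next K (g K m) < Lz m := by
        obtain ⟨r', h2, h3, h4⟩ := extK_g hK ht hne (m + 1) (m + 1) (by rw [length_g])
        have h5 : r' = g K (m + 1) := (h4.eq_of_length (by rw [h3, length_g])).symm
        subst h5
        have h6 := hK h2 m (by rw [length_g]; omega)
        simpa [g, length_g] using h6
      simp only [lb, g]
      rw [Nat.mod_eq_of_lt h1]
  · obtain ⟨r', h2, h3, h4⟩ := extK_g hK ht hne m m (by rw [length_g])
    have h5 : r' = g K m := (h4.eq_of_length (by rw [h3, length_g])).symm
    rwa [← h5]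

/-! ### The module -/

def H (T W : Set Node) : Set Node := {s | ∃ r : Node, r.length = s.length ∧ r ∈ fullR ∧
  (∀ k ≤ r.length, r.take k ∈ W) ∧ pre (phi T (ofR r)) r.length = s}

def K (T W : Set Node) (t : Br) : Set Node := {r | r ∈ fullR ∧
  (∀ k ≤ r.length, r.take k ∈ W) ∧ pre (phi T (ofR r)) r.length = pre t r.length}

theorem sel (h1 : PhiStmt) : SelStmt := by
  obtain ⟨p1, p2, p3, p4, -⟩ := h1
  have hφ : ∀ (r : Node) (m : ℕ) (s : Node),
      MeasurableSet {T : Set Node | pre (phi T (ofR r)) m = s} := by
    intro r m s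
    have hm : Measurable (fun T : Set Node => (T, ofR r)) :=
      measurable_id.prodMk measurable_const
    have h5 : MeasurableSet ((fun x : Set Node × Rd => phi x.1 x.2) ⁻¹' {t : Br | pre t m = s}) :=
      p4 (measurableSet_pre_eq (s := sz) m s)
    exact hm h5
  have hW : ∀ r : Node, MeasurableSet {W : Set Node | ∀ k ≤ r.length, r.take k ∈ W} := by
    intro r
    have : {W : Set Node | ∀ k ≤ r.length, r.take k ∈ W} =
        ⋂ k : ℕ, ⋂ _ : k ≤ r.length, {W : Set Node | r.take k ∈ W} := by
      ext W; simp
    rw [this]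
    exact MeasurableSet.iInter fun k => MeasurableSet.iInter fun _ => measurableSet_mem_node _
  refine ⟨H, fun T W t => lb (K T W t), ?_, ?_, ?_⟩
  · refine measurable_set_iff.2 fun s => measurableSet_setOfPred.1 ?_
    have : {x : Set Node × Set Node | s ∈ H x.1 x.2} = ⋃ r : {r : Node // r.length = s.length ∧
        r ∈ fullR}, (Prod.snd ⁻¹' {W : Set Node | ∀ k ≤ r.1.length, r.1.take k ∈ W}) ∩
          (Prod.fst ⁻¹' {T : Set Node | pre (phi T (ofR r.1)) r.1.length = s}) := by
      ext x
      simp only [H, mem_ofPred_eq, mem_iUnion, mem_inter_iff, mem_preimage]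
      constructor
      · rintro ⟨r, h1, h2, h3, h4⟩
        exact ⟨⟨r, h1, h2⟩, h3, h4⟩
      · rintro ⟨⟨r, h1, h2⟩, h3, h4⟩
        exact ⟨r, h1, h2, h3, h4⟩
    rw [this]
    exact MeasurableSet.iUnion fun r => (measurable_snd (hW _)).inter (measurable_fst (hφ _ _ _))
  · refine measurable_lb.comp ?_
    refine measurable_set_iff.2 fun r => measurableSet_setOfPred.1 ?_
    by_cases hr : r ∈ fullR
    · have : {x : (Set Node × Set Node) × Br | r ∈ K x.1.1 x.1.2 x.2} =
          ((fun x => x.1.2) ⁻¹' {W : Set Node | ∀ k ≤ r.length, r.take k ∈ W}) ∩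
          ⋃ s : Node, ((fun x => x.1.1) ⁻¹' {T : Set Node | pre (phi T (ofR r)) r.length = s}) ∩
            ((fun x => x.2) ⁻¹' {t : Br | pre t r.length = s}) := by
        ext x
        simp only [K, mem_ofPred_eq, mem_iUnion, mem_inter_iff, mem_preimage]
        constructor
        · rintro ⟨h2, h3, h4⟩
          exact ⟨h3, _, h4, rfl⟩
        · rintro ⟨h3, s, h4, rfl⟩
          exact ⟨hr, h3, h4⟩
      rw [this]
      refine MeasurableSet.inter ((measurable_snd.comp measurable_fst) (hW _)) ?_
      refine MeasurableSet.iUnion fun s => ?_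
      exact ((measurable_fst.comp measurable_fst) (hφ _ _ _)).inter
        (measurable_snd (measurableSet_pre_eq (s := sz) _ _))
    · have : {x : (Set Node × Set Node) × Br | r ∈ K x.1.1 x.1.2 x.2} = ∅ := by
        ext x
        simp [K, hr]
      rw [this]
      exact MeasurableSet.empty
  · intro T W hT
    refine ⟨?_, ?_⟩
    · intro w hw m
      refine ⟨pre w m, by simp, pre_mem_fullR w m, ?_, ?_⟩
      · intro k hk
        rw [take_pre w (by simpa using hk)]
        exact hw k
      · rw [length_pre]
        exact p3 T hT _ _ _ fun i hi => ofR_pre w hi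
    · intro t ht
      have hK : K T W t ⊆ fullR := fun r hr => hr.1
      have htake : ∀ r ∈ K T W t, ∀ k, r.take k ∈ K T W t := by
        rintro r ⟨h2, h3, h4⟩ k
        refine ⟨take_mem_fullR h2 k, ?_, ?_⟩
        · intro k' hk'
          rw [List.length_take] at hk'
          rw [List.take_take, min_eq_left (by omega)]
          exact h3 k' (by omega)
        · rw [List.length_take]
          have h5 : pre (phi T (ofR (r.take k))) (min k r.length) =
              pre (phi T (ofR r)) (min k r.length) :=
            p3 T hT _ _ _ fun i hi => ofR_take (by omega)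
          rw [h5, ← take_pre (phi T (ofR r)) (min_le_right k r.length), h4, take_pre _
            (min_le_right k r.length)]
      have hne : ∀ m, ∃ r ∈ K T W t, r.length = m := by
        intro m
        obtain ⟨r, h2, h3, h4, h5⟩ := ht m
        rw [length_pre] at h2
        refine ⟨r, ⟨h3, h4, ?_⟩, h2⟩
        rw [h5, h2]
      have hlb : ∀ m, pre (lb (K T W t)) m ∈ K T W t := fun m => by
        have := pre_lb hK htake hne m
        rw [this.1]
        exact this.2
      refine ⟨fun m => ?_, ?_⟩
      · have := (hlb m).2.1 m (by simp)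
        rwa [take_pre _ le_rfl] at this
      · funext m
        have h2 := (hlb (m + 1)).2.2
        rw [length_pre] at h2
        have h3 : pre (phi T (ofR (pre (lb (K T W t)) (m + 1)))) (m + 1) =
            pre (phi T (lb (K T W t))) (m + 1) :=
          p3 T hT _ _ _ fun i hi => ofR_pre _ hi
        rw [h3] at h2
        exact pre_eq_pre_iff.1 h2 m (Nat.lt_succ_self m)

end Pool.Agent.FL.H76.S

theorem Pool.Agent.FL.H76.b5 (h1 : Pool.Agent.FL.PhiStmt) : Pool.Agent.FL.SelStmt :=
  Pool.Agent.FL.H76.S.sel h1
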