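import Pool.Agent.Helper93_FL.BStmts

/-!
# Module B7: a measurable set of positive measure contains a stronger condition
-/

open MeasureTheory Set

namespace Pool.Agent.FL.H76

theorem b7 (h1 : PhiStmt) (hW : WStmt) (hG : ThinStmt) (hS : SelStmt) (hX : XStmt) : PMStmt := by
  intro I _ _ p A hA hpos
  classical
  obtain ⟨-, -, -, -, p5⟩ := h1
  obtain ⟨G, hGm, hG⟩ := hG
  obtain ⟨H, Sel, hHm, hSm, hS⟩ := hS
  obtain ⟨x1, x2, -, x4⟩ := hX I p
  obtain ⟨S0, hS0, W, w1, w2, w3, w4, w5⟩ := hW I (p.X ⁻¹' A) (x4 hA) hpos
  let z : Rd := fun m => ⟨0, Nat.factorial_pos _⟩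
  let Fx : Pt I → (j : I) → ((i : I) → i < j → Rd) → Rd := fun y j ih =>
    Sel (p.T j y) (W j (fun i => if h : i < j then ih i h else z)) (y j)
  let U : Pt I → I → Rd := fun y => (wellFounded_lt (α := I)).fix (Fx y)
  have hU : ∀ y j, U y j = Sel (p.T j y) (W j (U y)) (y j) := by
    intro y j
    have h : U y j = Fx y j (fun i _ => U y i) := (wellFounded_lt (α := I)).fix_eq (Fx y) j
    rw [h]
    simp only [Fx]
    congr 1
    apply w2
    intro i _ hij
    simp [hij]
  -- dependence
  set S : Set I := S0 ∪ p.S with hSdef
  have hScount : S.Countable := hS0.union p.scount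
  have hdepT : ∀ j (y y' : Pt I), (∀ i ∈ S, i < j → y i = y' i) → p.T j y = p.T j y' :=
    fun j y y' h => p.dep j y y' fun i hi hij => h i (Or.inr hi) hij
  have hdepW : ∀ j (y y' : Pt I), (∀ i ∈ S, i < j → y i = y' i) → W j (U y) = W j (U y') := by
    intro j
    induction j using WellFoundedLT.induction with
    | ind j ih =>
      intro y y' h
      apply w2
      intro i hi hij
      rw [hU, hU, hdepT i y y' (fun k hk hki => h k hk (hki.trans hij)),
        ih i hij y y' (fun k hk hki => h k hk (hki.trans hij)), h i (Or.inl hi) hij]
  -- measurability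
  have hmeas : ∀ j, Measurable (fun y => W j (U y)) ∧ Measurable (fun y => U y j) := by
    intro j
    induction j using WellFoundedLT.induction with
    | ind j ih =>
      have h2 : Measurable (fun y => W j (U y)) := by
        have h3 : (fun y => W j (U y)) =
            fun y => W j (fun i => if i < j then U y i else z) := by
          funext y
          apply w2
          intro i _ hij
          simp [hij]
        rw [h3]
        refine (w3 j).comp (measurable_pi_iff.2 fun i => ?_)
        by_cases hij : i < j
        · simpa [hij] using (ih i hij).2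
        · simp [hij]
      refine ⟨h2, ?_⟩
      have h4 : (fun y => U y j) = fun y => Sel (p.T j y) (W j (U y)) (y j) := by
        funext y
        exact hU y j
      rw [h4]
      exact hSm.comp (((p.meas j).prodMk h2).prodMk (measurable_pi_apply j))
  let T' : I → Pt I → Set Node := fun j y =>
    if j ∈ S then G (p.T j y) (H (p.T j y) (W j (U y))) else full
  obtain ⟨q, -, hq1, hq2⟩ := Cond.exists_of_raw T' S hScount
    (fun i hi y => by simp [T', hi])
    (fun i y y' h => by simp only [T', hdepT i y y' h, hdepW i y y' h])
    (fun i => by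
      by_cases hi : i ∈ S
      · simp only [T', hi, if_true]
        refine hGm.comp ((p.meas i).prodMk ?_)
        exact hHm.comp ((p.meas i).prodMk (hmeas i).1)
      · simp [T', hi])
  have key : ∀ y ∈ q.body, ∀ j, U y j ∈ bodyR (W j (U y)) ∧ phi (p.T j y) (U y j) = y j := by
    intro y hy j
    induction j using WellFoundedLT.induction with
    | ind j ih =>
      have h2 := w4 j (U y) (fun i hij => (ih i hij).1)
      obtain ⟨s1, s2⟩ := hS (p.T j y) (W j (U y)) (p.good j y)
      have hH : ∀ m, pre (y j) m ∈ H (p.T j y) (W j (U y)) := by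
        by_cases hj : j ∈ S
        · obtain ⟨g1, g2, g3⟩ := hG (p.T j y) (H (p.T j y) (W j (U y))) (p.good j y)
            (fun h0 => h2 (measure_mono_null (fun w hw => s1 w hw) h0))
          have hT' : T' j y = G (p.T j y) (H (p.T j y) (W j (U y))) := by simp [T', hj]
          have h3 : q.T j y = G (p.T j y) (H (p.T j y) (W j (U y))) := by
            rw [← hT']
            exact hq1 j y (by rw [hT']; exact g1)
          apply g3
          rw [← h3]
          exact hy j
        · intro m
          have h3 : W j (U y) = univ := w1 j (fun h => hj (Or.inl h)) _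
          have h4 : p.T j y = full := p.full' j (fun h => hj (Or.inr h)) y
          have h5 := p5 (p.T j y) (p.good j y) (pre (y j) m) (by rw [h4]; exact pre_mem_full _ _)
          have h6 : mU {w | pre (phi (p.T j y) w) (pre (y j) m).length = pre (y j) m} ≠ 0 := by
            rw [h5]
            refine Finset.prod_ne_zero_iff.2 fun i _ => ?_
            exact ENNReal.inv_ne_zero.2 (ENNReal.natCast_ne_top _)
          obtain ⟨w, hw⟩ := nonempty_of_measure_ne_zero h6
          have h7 := s1 w (by rw [h3]; intro m; exact mem_univ _) (pre (y j) m).length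
          have hw' : pre (phi (p.T j y) w) (pre (y j) m).length = pre (y j) m := hw
          rwa [hw'] at h7
      have h8 := s2 (y j) hH
      rw [← hU] at h8
      exact h8
  have hXU : ∀ y ∈ q.body, p.X (U y) = y := by
    intro y hy
    funext j
    induction j using WellFoundedLT.induction with
    | ind j ih =>
      rw [x1, p.T_congr (y' := y) ih]
      exact (key y hy j).2
  refine ⟨q, fun y hy => ?_, fun y hy => ?_⟩
  · rw [← hXU y hy]
    exact x2 _
  · have h2 := w5 (U y) (fun j => (key y hy j).1)
    have h3 : p.X (U y) ∈ A := h2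
    rwa [hXU y hy] at h3

end Pool.Agent.FL.H76
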